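import Mathlib

namespace Pool.Agent.Results.MP_93535d_co.Example

open Finset

variable {n : ℕ} (G : SimpleGraph (Fin n))

noncomputable def ecc (v : Fin n) : ℕ := univ.sup fun u => G.dist u v

noncomputable def gammaB : ℕ :=
  sInf {c | ∃ f : Fin n → ℕ, (∀ v, f v ≤ ecc G v) ∧ (∀ u, ∃ v, 1 ≤ f v ∧ G.dist u v ≤ f v) ∧
    c = ∑ v, f v}

noncomputable def mp : ℕ :=
  sSup {c | ∃ M : Finset (Fin n), (∀ v k, 1 ≤ k → #{u ∈ M | G.dist u v ≤ k} ≤ k) ∧ c = #M}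

noncomputable def gammaBF : ℝ :=
  sInf {c | ∃ x : Fin n → ℕ → ℝ, (∀ v k, 0 ≤ x v k) ∧
    (∀ u, 1 ≤ ∑ v, ∑ k ∈ Icc 1 (ecc G v) with G.dist u v ≤ k, x v k) ∧
    c = ∑ v, ∑ k ∈ Icc 1 (ecc G v), k * x v k}

def d (u v : Fin 30) : ℕ :=
  [0, 4, 1, 3, 1, 3, 1, 3, 2, 2, 2, 2, 2, 2, 3, 1, 3, 2, 2, 2, 2, 2, 2, 3, 1, 3, 1, 3, 1, 4].getD
    (u - v).val 0

def H : SimpleGraph (Fin 30) where
  Adj u v := d u v = 1
  symm := ⟨by decide +kernel⟩
  loopless := ⟨by decide +kernel⟩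

lemma walk (k : ℕ) : ∀ u v, d u v = k → ∃ p : H.Walk u v, p.length = k := by
  have a : ∀ u v, d u v = 0 → u = v := by decide +kernel
  have b : ∀ u v, d u v ≠ 0 → ∃ w, d u w = 1 ∧ d w v + 1 = d u v := by decide +kernel
  induction k with
  | zero => intro u v h; obtain rfl := a u v h; exact ⟨.nil, rfl⟩
  | succ k ih =>
    intro u v h
    obtain ⟨w, h1, h2⟩ := b u v (by omega)
    obtain ⟨p, hp⟩ := ih w v (by omega)
    exact ⟨.cons h1 p, by simp [hp]⟩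

lemma conn : H.Connected := ⟨fun u v => ⟨(walk _ u v rfl).choose⟩⟩

lemma dist_eq (u v : Fin 30) : H.dist u v = d u v := by
  have a : ∀ u, d u u = 0 := by decide +kernel
  have b : ∀ u w v, d u w = 1 → d u v ≤ d w v + 1 := by decide +kernel
  apply le_antisymm
  · obtain ⟨p, hp⟩ := walk _ u v rfl
    exact hp ▸ H.dist_le p
  · obtain ⟨p, hp⟩ := conn.exists_walk_length_eq_dist u v
    rw [← hp]
    clear hp
    induction p with
    | nil => simp [a]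
    | cons h p ih => exact (b _ _ _ h).trans (by simpa using ih)

lemma ecc_eq (v : Fin 30) : ecc H v = 4 := by
  simp only [ecc, dist_eq]
  revert v
  decide +kernel

lemma ball : ∀ v : Fin 30, ∀ k ∈ Icc 1 4, #{u | d u v ≤ k} ≤ 8 * k + 4 * (k / 2) ∧
    #{u | d u v ≤ k} ≤ 10 * k := by decide +kernel

lemma cov {m : ℕ} (d : Fin m → Fin m → ℕ)
    (ball : ∀ v, ∀ k ∈ Icc 1 4, #{u | d u v ≤ k} ≤ 8 * k + 4 * (k / 2)) (f : Fin m → ℕ)
    (h1 : ∀ v, f v ≤ 4) (h2 : ∀ u, ∃ v, 1 ≤ f v ∧ d u v ≤ f v) (hm : m = 30) : 4 ≤ ∑ v, f v := by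
  have a : (univ : Finset (Fin m)) ⊆ univ.biUnion fun v => {u | 1 ≤ f v ∧ d u v ≤ f v} := by
    intro u _
    simpa using h2 u
  have b : ∀ v, #{u | 1 ≤ f v ∧ d u v ≤ f v} ≤ 8 * f v + 4 * (f v / 2) := fun v => by
    by_cases h : 1 ≤ f v
    · simpa [h] using ball v _ (mem_Icc.2 ⟨h, h1 v⟩)
    · simp [h]
  have c := (card_le_card a).trans (card_biUnion_le.trans (sum_le_sum fun v _ => b v))
  have e : 2 * ∑ v, f v / 2 ≤ ∑ v, f v := by
    rw [mul_sum]; exact sum_le_sum fun v _ => by omega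
  rw [sum_add_distrib, ← mul_sum, ← mul_sum, card_fin] at c
  omega

lemma hB : gammaB H = 4 := by
  simp only [gammaB, ecc_eq, dist_eq]
  refine IsLeast.csInf_eq ⟨⟨fun v => if v = 0 then 4 else 0, by decide +kernel, by decide +kernel,
    by simp⟩, ?_⟩
  rintro _ ⟨f, h1, h2, e⟩
  rw [e]
  exact cov d (fun v k hk => (ball v k hk).1) f h1 h2 rfl

lemma hM : mp H = 2 := by
  simp only [mp, dist_eq]
  refine IsGreatest.csSup_eq ⟨⟨{0, 1}, fun v k hk => ?_, by decide⟩, ?_⟩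
  · obtain rfl | h := hk.eq_or_lt
    · revert v; decide +kernel
    · exact (card_filter_le _ _).trans h
  · rintro _ ⟨M, h, rfl⟩
    by_contra l
    obtain ⟨a, ha, b, hb, c, hc, ab, ac, bc⟩ := two_lt_card.1 (not_le.1 l)
    have k : ∀ a b c : Fin 30, d a b ≤ 2 ∨ d a c ≤ 2 ∨ d b c ≤ 2 ∨
        ∃ v, d a v ≤ 2 ∧ d b v ≤ 2 ∧ d c v ≤ 2 := by decide +kernel
    have k' : ∀ a b : Fin 30, d a b ≤ 2 → ∃ v, d a v ≤ 1 ∧ d b v ≤ 1 := by decide +kernel
    have t : ∀ a ∈ M, ∀ b ∈ M, a ≠ b → ¬ d a b ≤ 2 := fun a ha b hb ab e => by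
      obtain ⟨v, h1, h2⟩ := k' a b e
      exact (h v 1 le_rfl).not_gt (one_lt_card.2 ⟨a, by simp [*], b, by simp [*], ab⟩)
    rcases k a b c with e | e | e | ⟨v, h1, h2, h3⟩
    · exact t a ha b hb ab e
    · exact t a ha c hc ac e
    · exact t b hb c hc bc e
    · exact (h v 2 one_le_two).not_gt
        (two_lt_card.2 ⟨a, by simp [*], b, by simp [*], c, by simp [*], ab, ac, bc⟩)

lemma hF : gammaBF H = 3 := by
  simp only [gammaBF, ecc_eq, dist_eq]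
  refine IsLeast.csInf_eq ⟨⟨fun _ k => if k = 2 then 1 / 20 else 0, fun _ k => by positivity,
    fun u => ?_, ?_⟩, ?_⟩
  · have : ∀ u : Fin 30, #{v | d u v ≤ 2} = 20 := by decide +kernel
    simp only [sum_ite_eq', mem_filter, mem_Icc]
    norm_num [sum_ite, this u]
  · simp only [mul_ite, mul_zero, sum_ite_eq', mem_Icc]
    norm_num
  · rintro _ ⟨x, h0, h1, rfl⟩
    have a := sum_le_sum fun u (_ : u ∈ univ) => h1 u
    simp only [sum_filter] at a
    rw [sum_comm] at a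
    have b : ∀ v, ∑ u, ∑ k ∈ Icc 1 4, (if d u v ≤ k then x v k else 0) ≤
        10 * ∑ k ∈ Icc 1 4, k * x v k := fun v => by
      rw [sum_comm, mul_sum]
      refine sum_le_sum fun k hk => ?_
      rw [← sum_filter, sum_const, nsmul_eq_mul, ← mul_assoc]
      exact mul_le_mul_of_nonneg_right (by exact_mod_cast (ball v k hk).2) (h0 v k)
    have c := a.trans (sum_le_sum fun v _ => b v)
    rw [← mul_sum] at c
    norm_num at c ⊢
    linarith

theorem result : ∃ (n : ℕ) (G : SimpleGraph (Fin n)), G.Connected ∧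
    mp G = 2 ∧ gammaBF G = 3 ∧ gammaB G = 4 := ⟨30, H, conn, hM, hF, hB⟩

end Pool.Agent.Results.MP_93535d_co.Example
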